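import Mathlib
import Pool.Agent.J6H71.Sum3.Defs

/-!
# Programs which compute with few of the numbers
-/

set_option autoImplicit false

namespace Pool.Agent.J6H71.Sum3L

open Pool.Agent.J6H71.Sum3 (trans Valid HasSum)

/-- A program for `n` numbers which computes values of real functions of the input. The argument of
the functions is the list of what the program knows: for each value computed so far the first index
at which the same value was computed. It chooses the next function, or it gives an answer. -/
structure LProg (n : ℕ) where
  fn : List ℕ → (Fin n → ℝ) → ℝ
  answer : List ℕ → Option Bool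

namespace LProg

variable {n : ℕ}

/-- The value computed after the transcript `τ`. -/
def value (P : LProg n) (x : Fin n → ℤ) (τ : List ℕ) : ℝ := P.fn τ (fun i => (x i : ℝ))

/-- The transcript of the first `t` values. -/
noncomputable def tr (P : LProg n) (x : Fin n → ℤ) (t : ℕ) : List ℕ := (trans (P.value x) t).1

/-- The program gives the answer `b` after it has computed exactly `t` values. -/
def Answers (P : LProg n) (x : Fin n → ℤ) (t : ℕ) (b : Bool) : Prop :=
  P.answer (P.tr x t) = some b ∧ ∀ s < t, P.answer (P.tr x s) = none

/-- The program gives the answer `b` after it has computed at most `T` values. -/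
def Within (P : LProg n) (x : Fin n → ℤ) (T : ℕ) (b : Bool) : Prop := ∃ t ≤ T, P.Answers x t b

end LProg

/-- The function depends on at most `r` of the numbers. -/
def Local {n : ℕ} (r : ℕ) (f : (Fin n → ℝ) → ℝ) : Prop :=
  ∃ D : Finset (Fin n), D.card ≤ r ∧ ∀ x y : Fin n → ℝ, (∀ i ∈ D, x i = y i) → f x = f y

end Pool.Agent.J6H71.Sum3L
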