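import Mathlib

/-!
# Zeros of functions that are tame on lines
-/

set_option autoImplicit false

namespace Pool.Agent.J6H71.Sum3L

open Finset

/-- A set of points of a box with at most `Δ` points on each line in the direction `l`. -/
theorem card_line_le {ι : Type*} [Fintype ι] [DecidableEq ι] {U : ℕ} (S : Finset (ι → Fin U)) (l : ι)
    (Δ : ℕ) (h : ∀ z : ι → Fin U, (univ.filter (fun t => Function.update z l t ∈ S)).card ≤ Δ) :
    S.card * U ≤ Δ * U ^ Fintype.card ι := by
  classical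
  have h1 : ((univ : Finset ((ι → Fin U) × Fin U)).filter
      (fun p => Function.update p.1 l p.2 ∈ S)).card =
      (S ×ˢ (univ : Finset (Fin U))).card := by
    apply Finset.card_nbij' (fun p => (Function.update p.1 l p.2, p.1 l))
      (fun p => (Function.update p.1 l p.2, p.1 l))
    · intro p hp
      simpa using hp
    · intro p hp
      simpa using hp
    · intro p _
      simp
    · intro p _
      simp
  have h2 : ((univ : Finset ((ι → Fin U) × Fin U)).filter
      (fun p => Function.update p.1 l p.2 ∈ S)).card ≤ Δ * U ^ Fintype.card ι := by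
    rw [← Finset.univ_product_univ, Finset.card_filter, Finset.sum_product]
    calc ∑ z : ι → Fin U, ∑ t : Fin U, (if Function.update z l t ∈ S then 1 else 0) ≤
        ∑ _z : ι → Fin U, Δ := by
          apply Finset.sum_le_sum
          intro z _
          rw [← Finset.card_filter]
          exact h z
      _ = Δ * U ^ Fintype.card ι := by
          rw [Finset.sum_const, Finset.card_univ, smul_eq_mul, Fintype.card_pi]
          simp [mul_comm]
  rw [h1, Finset.card_product, Finset.card_univ, Fintype.card_fin] at h2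
  exact h2

/-- Two functions agree on each line everywhere or in at most `Δ` points. -/
def Tame {ι : Type*} (Δ : ℕ) (f g : (ι → ℝ) → ℝ) : Prop :=
  ∀ x d : ι → ℝ, (∀ t : ℝ, f (x + t • d) = g (x + t • d)) ∨
    Set.encard {t : ℝ | f (x + t • d) = g (x + t • d)} ≤ Δ

open Classical in
/-- If a property of a real number holds for at most `Δ` numbers then it holds for at most `Δ`
elements of `Fin U`. -/
lemma card_fin_le {U Δ : ℕ} (Q : ℝ → Prop) (h : Set.encard {t : ℝ | Q t} ≤ Δ) :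
    (univ.filter (fun t : Fin U => Q ((t : ℕ) : ℝ))).card ≤ Δ := by
  have h1 : Set.encard ((fun t : Fin U => ((t : ℕ) : ℝ)) ''
      ((univ.filter (fun t : Fin U => Q ((t : ℕ) : ℝ)) : Finset (Fin U)) : Set (Fin U))) ≤ Δ := by
    refine (Set.encard_le_encard ?_).trans h
    rintro _ ⟨t, ht, rfl⟩
    simpa using ht
  rw [Set.InjOn.encard_image, Set.encard_coe_eq_coe_finsetCard] at h1
  · exact_mod_cast h1
  · intro a _ b _ hab
    apply Fin.ext
    have : ((a : ℕ) : ℝ) = ((b : ℕ) : ℝ) := hab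
    exact_mod_cast this

/-- The point of `ℝ ^ 3` given by an element of the box. -/
def pt {U : ℕ} (y : Fin 3 → Fin U) : Fin 3 → ℝ := fun c => ((y c : ℕ) : ℝ)

/-- The point on the plane of the planted instances. -/
def ptp {U : ℕ} (y : Fin 3 → Fin U) : Fin 3 → ℝ :=
  ![((y 0 : ℕ) : ℝ), ((y 1 : ℕ) : ℝ), ((y 0 : ℕ) : ℝ) + ((y 1 : ℕ) : ℝ)]

lemma card_layer {U Δ : ℕ} (Q : (Fin 3 → Fin U) → Prop) [DecidablePred Q] (l : Fin 3) (q : (Fin 3 → Fin U) → ℝ → Prop)
    (h1 : ∀ y, Q y → q y ((y l : ℕ) : ℝ))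
    (h2 : ∀ y t, q (Function.update y l t) = q y)
    (h3 : ∀ y, Q y → Set.encard {t : ℝ | q y t} ≤ Δ) :
    (univ.filter Q).card * U ≤ Δ * U ^ 3 := by
  classical
  have := card_line_le (univ.filter Q) l Δ (by
    intro z
    by_cases hz : ∃ t, Q (Function.update z l t)
    · obtain ⟨t0, ht0⟩ := hz
      have h4 := h3 _ ht0
      rw [h2] at h4
      refine le_trans (Finset.card_le_card ?_) (card_fin_le (U := U) (q z) h4)
      intro t ht
      simp only [Finset.mem_filter, Finset.mem_univ, true_and] at ht ⊢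
      have h5 := h1 _ ht
      rw [h2] at h5
      simpa using h5
    · push Not at hz
      rw [Finset.filter_eq_empty_iff.mpr]
      · simp
      · intro t _
        simp [hz t])
  simpa using this

open Classical in
/-- Two different functions agree in few points of a box. -/
theorem card_eq_le {U Δ : ℕ} (u v : (Fin 3 → ℝ) → ℝ) (htame : Tame Δ u v) (hne : u ≠ v) :
    (univ.filter (fun y : Fin 3 → Fin U => u (pt y) = v (pt y))).card * U ≤ 3 * Δ * U ^ 3 := by
  obtain ⟨y0, hy0⟩ := Function.ne_iff.mp hne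
  -- the three layers
  obtain ⟨w, hw⟩ : ∃ w : ℝ → ℝ → ℝ → Prop, w = fun a b c => u ![a, b, c] = v ![a, b, c] := ⟨_, rfl⟩
  have hpt : ∀ y : Fin 3 → Fin U, pt y = ![((y 0 : ℕ) : ℝ), ((y 1 : ℕ) : ℝ), ((y 2 : ℕ) : ℝ)] := by
    intro y; funext c; fin_cases c <;> rfl
  have hy0' : ¬ w (y0 0) (y0 1) (y0 2) := by
    rw [hw]
    have : (![y0 0, y0 1, y0 2] : Fin 3 → ℝ) = y0 := by funext c; fin_cases c <;> rfl
    simpa [this] using hy0
  have line2 : ∀ a b, (∀ t, w a b t) ∨ Set.encard {t : ℝ | w a b t} ≤ Δ := by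
    intro a b
    have := htame ![a, b, 0] ![0, 0, 1]
    have e : ∀ t : ℝ, (![a, b, 0] + t • ![0, 0, 1] : Fin 3 → ℝ) = ![a, b, t] := by
      intro t; funext c; fin_cases c <;> simp
    simp only [e] at this
    rw [hw]; exact this
  have line1 : ∀ a b, (∀ t, w a t b) ∨ Set.encard {t : ℝ | w a t b} ≤ Δ := by
    intro a b
    have := htame ![a, 0, b] ![0, 1, 0]
    have e : ∀ t : ℝ, (![a, 0, b] + t • ![0, 1, 0] : Fin 3 → ℝ) = ![a, t, b] := by
      intro t; funext c; fin_cases c <;> simp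
    simp only [e] at this
    rw [hw]; exact this
  have line0 : ∀ a b, (∀ t, w t a b) ∨ Set.encard {t : ℝ | w t a b} ≤ Δ := by
    intro a b
    have := htame ![0, a, b] ![1, 0, 0]
    have e : ∀ t : ℝ, (![0, a, b] + t • ![1, 0, 0] : Fin 3 → ℝ) = ![t, a, b] := by
      intro t; funext c; fin_cases c <;> simp
    simp only [e] at this
    rw [hw]; exact this
  have c2 := card_layer (U := U) (Δ := Δ)
    (fun y => w (y 0 : ℕ) (y 1 : ℕ) (y 2 : ℕ) ∧ ¬ ∀ t, w (y 0 : ℕ) (y 1 : ℕ) t) 2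
    (fun y t => w (y 0 : ℕ) (y 1 : ℕ) t) (fun y h => h.1)
    (by intro y t; funext t'; simp)
    (fun y h => (line2 _ _).resolve_left h.2)
  have c1 := card_layer (U := U) (Δ := Δ)
    (fun y => w (y 0 : ℕ) (y 1 : ℕ) (y0 2) ∧ ¬ ∀ t, w (y 0 : ℕ) t (y0 2)) 1
    (fun y t => w (y 0 : ℕ) t (y0 2)) (fun y h => h.1)
    (by intro y t; funext t'; simp)
    (fun y h => (line1 _ _).resolve_left h.2)
  have c0 := card_layer (U := U) (Δ := Δ)
    (fun y => w (y 0 : ℕ) (y0 1) (y0 2)) 0
    (fun _ t => w t (y0 1) (y0 2)) (fun y h => h)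
    (by intro y t; rfl)
    (fun y _ => (line0 _ _).resolve_left (fun h => hy0' (h _)))
  have hsub : univ.filter (fun y : Fin 3 → Fin U => u (pt y) = v (pt y)) ⊆
      univ.filter (fun y : Fin 3 → Fin U =>
        w (y 0 : ℕ) (y 1 : ℕ) (y 2 : ℕ) ∧ ¬ ∀ t, w (y 0 : ℕ) (y 1 : ℕ) t) ∪
      (univ.filter (fun y : Fin 3 → Fin U =>
        w (y 0 : ℕ) (y 1 : ℕ) (y0 2) ∧ ¬ ∀ t, w (y 0 : ℕ) t (y0 2)) ∪
      univ.filter (fun y : Fin 3 → Fin U => w (y 0 : ℕ) (y0 1) (y0 2))) := by
    intro y hy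
    simp only [Finset.mem_filter, Finset.mem_univ, true_and, Finset.mem_union] at hy ⊢
    have hy1 : w (y 0 : ℕ) (y 1 : ℕ) (y 2 : ℕ) := by
      rw [hw]; dsimp only; rw [← hpt]; exact hy
    by_cases a : ∀ t, w (y 0 : ℕ) (y 1 : ℕ) t
    · right
      by_cases b : ∀ t, w (y 0 : ℕ) t (y0 2)
      · right; exact b _
      · left; exact ⟨a _, b⟩
    · left; exact ⟨hy1, a⟩
  calc _ ≤ _ := Nat.mul_le_mul_right _ ((Finset.card_le_card hsub).trans
        ((Finset.card_union_le _ _).trans (Nat.add_le_add_left (Finset.card_union_le _ _) _)))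
    _ ≤ 3 * Δ * U ^ 3 := by
        rw [add_mul, add_mul]
        linarith

/-- The function depends on one coordinate only. -/
def OneVar (u : (Fin 3 → ℝ) → ℝ) : Prop := ∃ c : Fin 3, ∀ y y' : Fin 3 → ℝ, y c = y' c → u y = u y'

/-- On the plane `y 2 = y 0 + y 1`, two different functions of one variable are different. -/
lemma ne_on_plane (u v : (Fin 3 → ℝ) → ℝ) (hne : u ≠ v) (hu : OneVar u) (hv : OneVar v) :
    ∃ a b : ℝ, u ![a, b, a + b] ≠ v ![a, b, a + b] := by
  by_contra hcon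
  push Not at hcon
  apply hne
  obtain ⟨α, hα⟩ := hu
  obtain ⟨β, hβ⟩ := hv
  funext y
  have key : ∃ a b : ℝ, (![a, b, a + b] : Fin 3 → ℝ) α = y α ∧ (![a, b, a + b] : Fin 3 → ℝ) β = y β := by
    by_cases h2 : α ≠ 2 ∧ β ≠ 2
    · refine ⟨y 0, y 1, ?_, ?_⟩
      · obtain ⟨h, -⟩ := h2
        fin_cases α <;> simp_all
      · obtain ⟨-, h⟩ := h2
        fin_cases β <;> simp_all
    · by_cases h1 : α ≠ 1 ∧ β ≠ 1
      · refine ⟨y 0, y 2 - y 0, ?_, ?_⟩
        · obtain ⟨h, -⟩ := h1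
          fin_cases α <;> simp_all
        · obtain ⟨-, h⟩ := h1
          fin_cases β <;> simp_all
      · refine ⟨y 2 - y 1, y 1, ?_, ?_⟩
        · fin_cases α <;> simp_all
        · fin_cases β <;> simp_all
  obtain ⟨a, b, h1, h2⟩ := key
  rw [hα y _ h1.symm, hβ y _ h2.symm]
  exact hcon a b

open Classical in
/-- Two different functions of one variable agree in few points of the plane. -/
theorem card_eq_plane_le {U Δ : ℕ} (u v : (Fin 3 → ℝ) → ℝ) (htame : Tame Δ u v) (hne : u ≠ v)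
    (hu : OneVar u) (hv : OneVar v) :
    (univ.filter (fun y : Fin 3 → Fin U => u (ptp y) = v (ptp y))).card * U ≤ 2 * Δ * U ^ 3 := by
  obtain ⟨a0, b0, hab⟩ := ne_on_plane u v hne hu hv
  obtain ⟨w, hw⟩ : ∃ w : ℝ → ℝ → Prop, w = fun a b => u ![a, b, a + b] = v ![a, b, a + b] :=
    ⟨_, rfl⟩
  have hab' : ¬ w a0 b0 := by rw [hw]; exact hab
  have line1 : ∀ a, (∀ t, w a t) ∨ Set.encard {t : ℝ | w a t} ≤ Δ := by
    intro a
    have := htame ![a, 0, a] ![0, 1, 1]
    have e : ∀ t : ℝ, (![a, 0, a] + t • ![0, 1, 1] : Fin 3 → ℝ) = ![a, t, a + t] := by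
      intro t; funext c; fin_cases c <;> simp
    simp only [e] at this
    rw [hw]; exact this
  have line0 : ∀ b, (∀ t, w t b) ∨ Set.encard {t : ℝ | w t b} ≤ Δ := by
    intro b
    have := htame ![0, b, b] ![1, 0, 1]
    have e : ∀ t : ℝ, (![0, b, b] + t • ![1, 0, 1] : Fin 3 → ℝ) = ![t, b, t + b] := by
      intro t; funext c; fin_cases c <;> simp [add_comm]
    simp only [e] at this
    rw [hw]; exact this
  have c1 := card_layer (U := U) (Δ := Δ)
    (fun y => w (y 0 : ℕ) (y 1 : ℕ) ∧ ¬ ∀ t, w (y 0 : ℕ) t) 1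
    (fun y t => w (y 0 : ℕ) t) (fun y h => h.1)
    (by intro y t; funext t'; simp)
    (fun y h => (line1 _).resolve_left h.2)
  have c0 := card_layer (U := U) (Δ := Δ)
    (fun y => w (y 0 : ℕ) b0) 0
    (fun _ t => w t b0) (fun y h => h)
    (by intro y t; rfl)
    (fun y _ => (line0 _).resolve_left (fun h => hab' (h _)))
  have hsub : univ.filter (fun y : Fin 3 → Fin U => u (ptp y) = v (ptp y)) ⊆
      univ.filter (fun y : Fin 3 → Fin U => w (y 0 : ℕ) (y 1 : ℕ) ∧ ¬ ∀ t, w (y 0 : ℕ) t) ∪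
      univ.filter (fun y : Fin 3 → Fin U => w (y 0 : ℕ) b0) := by
    intro y hy
    simp only [Finset.mem_filter, Finset.mem_univ, true_and, Finset.mem_union] at hy ⊢
    have hy1 : w (y 0 : ℕ) (y 1 : ℕ) := by rw [hw]; exact hy
    by_cases a : ∀ t, w (y 0 : ℕ) t
    · right; exact a _
    · left; exact ⟨hy1, a⟩
  calc _ ≤ _ := Nat.mul_le_mul_right _ ((Finset.card_le_card hsub).trans
        (Finset.card_union_le _ _))
    _ ≤ 2 * Δ * U ^ 3 := by
        rw [add_mul]
        linarith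

end Pool.Agent.J6H71.Sum3L
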