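import Mathlib
import Pool.Agent.J6H71.Sum3L.Defs
import Pool.Agent.J6H71.Sum3L.Line
import Pool.Agent.J6H71.Sum3.Inst

/-!
# Hiding three of the numbers
-/

set_option autoImplicit false

namespace Pool.Agent.J6H71.Sum3L

open Finset Pool.Agent.J6H71.Sum3

variable {m n N U : ℕ} (E : Fin n ≃ (Fin 3 × Fin m) ⊕ Fin (n - 3 * m))

lemma mem_trans {V : Type*} (val : List ℕ → V) (t : ℕ) (v : V) (h : v ∈ (Sum3.trans val t).2) :
    ∃ t' < t, v = val (Sum3.trans val t').1 := by
  induction t with
  | zero => simp [Sum3.trans] at h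
  | succ t ih =>
    simp only [Sum3.trans, List.mem_append, List.mem_singleton] at h
    rcases h with h | h
    · obtain ⟨t', h1, h2⟩ := ih h
      exact ⟨t', by omega, h2⟩
    · exact ⟨t, by omega, h⟩

/-- The instance with real numbers. -/
noncomputable def xr (z : Fin 3 × Fin m → ℝ) : Fin n → ℝ :=
  fun p => Sum.elim (fun l : Fin 3 × Fin m => 16 * z l + (res l.1 : ℝ))
    (fun q : Fin (n - 3 * m) => 16 * ((q : ℕ) : ℝ) + 11) (E p)

/-- The index of the hidden number of the class `c`. -/
def sel (s : Fin m × Fin m × Fin m) : Fin 3 → Fin m := ![s.1, s.2.1, s.2.2]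

/-- The hidden numbers are replaced by `y`. -/
noncomputable def rep (z : Fin 3 × Fin m → Fin U) (s : Fin m × Fin m × Fin m) (y : Fin 3 → ℝ) :
    Fin 3 × Fin m → ℝ :=
  fun l => if l.2 = sel s l.1 then y l.1 else ((z l : ℕ) : ℝ)

/-- The hidden numbers are replaced by `y`. -/
def ov (z : Fin 3 × Fin m → Fin U) (s : Fin m × Fin m × Fin m) (y : Fin 3 → Fin U) :
    Fin 3 × Fin m → Fin U :=
  fun l => if l.2 = sel s l.1 then y l.1 else z l

/-- The hidden numbers. -/
def yn (z : Fin 3 × Fin m → Fin U) (s : Fin m × Fin m × Fin m) : Fin 3 → Fin U :=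
  fun c => z (c, sel s c)

/-- The value as a function of the hidden numbers. -/
noncomputable def hv (P : LProg n) (z : Fin 3 × Fin m → Fin U) (s : Fin m × Fin m × Fin m)
    (τ : List ℕ) : (Fin 3 → ℝ) → ℝ :=
  fun y => P.fn τ (xr E (rep z s y))

lemma yn_ov (z : Fin 3 × Fin m → Fin U) (s : Fin m × Fin m × Fin m) (y : Fin 3 → Fin U) :
    yn (ov z s y) s = y := by
  funext c; simp [yn, ov]

lemma rep_ov (z : Fin 3 × Fin m → Fin U) (s : Fin m × Fin m × Fin m) (y : Fin 3 → Fin U)
    (y' : Fin 3 → ℝ) : rep (ov z s y) s y' = rep z s y' := by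
  funext l; unfold rep ov; split_ifs <;> rfl

lemma hv_ov (P : LProg n) (z : Fin 3 × Fin m → Fin U) (s : Fin m × Fin m × Fin m)
    (y : Fin 3 → Fin U) : hv E P (ov z s y) s = hv E P z s := by
  funext τ y'; unfold hv; rw [rep_ov]

lemma ov_ov (z : Fin 3 × Fin m → Fin U) (s : Fin m × Fin m × Fin m) (y : Fin 3 → Fin U) :
    ov (ov z s y) s (yn z s) = z := by
  funext l
  unfold ov yn
  split_ifs with h
  · rw [← h]
  · rfl

lemma value_null (P : LProg n) (z : Fin 3 × Fin m → Fin U) (s : Fin m × Fin m × Fin m)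
    (τ : List ℕ) : P.value (inst E (toInt z)) τ = hv E P z s τ (pt (yn z s)) := by
  unfold LProg.value hv
  congr 1
  funext p
  unfold inst xr
  rcases E p with l | q
  · simp only [Sum.elim_inl]
    unfold toInt rep pt yn
    by_cases h : l.2 = sel s l.1
    · rw [if_pos h, ← h]; push_cast; rfl
    · rw [if_neg h]; push_cast; rfl
  · simp only [Sum.elim_inr]; push_cast; rfl

lemma value_plant (P : LProg n) (z : Fin 3 × Fin m → Fin U) (s : Fin m × Fin m × Fin m)
    (τ : List ℕ) : P.value (inst E (plant z s)) τ = hv E P z s τ (ptp (yn z s)) := by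
  unfold LProg.value hv
  congr 1
  funext p
  unfold inst xr
  rcases E p with ⟨c, i⟩ | q
  · simp only [Sum.elim_inl]
    have h0 : sel s 0 = s.1 := rfl
    have h1 : sel s 1 = s.2.1 := rfl
    have h2 : sel s 2 = s.2.2 := rfl
    unfold plant rep ptp yn
    fin_cases c
    · by_cases h : i = s.1
      · subst h; simp [h0]
      · simp [h0, h]
    · by_cases h : i = s.2.1
      · subst h; simp [h1]
      · simp [h1, h]
    · by_cases h : i = s.2.2
      · subst h; simp [h0, h1, h2]
      · simp [h2, h]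
  · simp only [Sum.elim_inr]; push_cast; rfl

lemma tame_hv (P : LProg n) (Δ : ℕ) (z : Fin 3 × Fin m → Fin U) (s : Fin m × Fin m × Fin m)
    (τ τ' : List ℕ) (h : Tame Δ (P.fn τ) (P.fn τ')) : Tame Δ (hv E P z s τ) (hv E P z s τ') := by
  intro x d
  have key : ∀ t : ℝ, xr E (rep z s (x + t • d)) = xr E (rep z s x) + t • (fun p =>
      Sum.elim (fun l : Fin 3 × Fin m => if l.2 = sel s l.1 then 16 * d l.1 else 0)
        (fun _ : Fin (n - 3 * m) => (0 : ℝ)) (E p)) := by
    intro t
    funext p
    simp only [Pi.add_apply, Pi.smul_apply, smul_eq_mul]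
    unfold xr rep
    rcases E p with l | q
    · simp only [Sum.elim_inl, Pi.add_apply, Pi.smul_apply, smul_eq_mul]
      split_ifs
      · ring
      · ring
    · simp only [Sum.elim_inr]; ring
  unfold hv
  simp only [key]
  exact h _ _

/-- Counting by the fibers of the three hidden coordinates. -/
lemma card_fiber_le (s : Fin m × Fin m × Fin m) (Φ : (Fin 3 × Fin m → Fin U) → Prop)
    [DecidablePred Φ] (c : ℕ)
    (h : ∀ z, (univ.filter (fun y : Fin 3 → Fin U => Φ (ov z s y))).card * U ≤ c * U ^ 3) :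
    (univ.filter Φ).card * U ≤ c * U ^ (3 * m) := by
  rcases Nat.eq_zero_or_pos U with rfl | hU
  · simp
  have h1 : ((univ : Finset ((Fin 3 × Fin m → Fin U) × (Fin 3 → Fin U))).filter
      (fun p => Φ (ov p.1 s p.2))).card =
      ((univ.filter Φ) ×ˢ (univ : Finset (Fin 3 → Fin U))).card := by
    apply Finset.card_nbij' (fun p => (ov p.1 s p.2, yn p.1 s)) (fun p => (ov p.1 s p.2, yn p.1 s))
    · intro p hp
      simpa using hp
    · intro p hp
      simp only [Finset.coe_filter, Finset.mem_univ, true_and, Set.mem_ofPred_eq]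
      simp only [Finset.coe_product, Set.mem_prod, Finset.mem_coe, Finset.mem_filter,
        Finset.mem_univ, true_and, and_true] at hp
      rw [ov_ov]; exact hp
    · intro p _
      simp only [ov_ov, yn_ov]
    · intro p _
      simp only [ov_ov, yn_ov]
  have h2 : ((univ : Finset ((Fin 3 × Fin m → Fin U) × (Fin 3 → Fin U))).filter
      (fun p => Φ (ov p.1 s p.2))).card * U ≤ U ^ (3 * m) * (c * U ^ 3) := by
    rw [← Finset.univ_product_univ, Finset.card_filter, Finset.sum_product, Finset.sum_mul]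
    calc ∑ z : Fin 3 × Fin m → Fin U, (∑ y : Fin 3 → Fin U, (if Φ (ov z s y) then 1 else 0)) * U ≤
        ∑ _z : Fin 3 × Fin m → Fin U, c * U ^ 3 := by
          apply Finset.sum_le_sum
          intro z _
          rw [← Finset.card_filter]
          exact h z
      _ = U ^ (3 * m) * (c * U ^ 3) := by
          rw [Finset.sum_const, Finset.card_univ, smul_eq_mul]
          simp
  rw [h1, Finset.card_product, Finset.card_univ] at h2
  have h3 : Fintype.card (Fin 3 → Fin U) = U ^ 3 := by simp
  rw [h3] at h2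
  have h4 : (univ.filter Φ).card * U * U ^ 3 ≤ c * U ^ (3 * m) * U ^ 3 := by
    calc _ = (univ.filter Φ).card * U ^ 3 * U := by ring
      _ ≤ U ^ (3 * m) * (c * U ^ 3) := h2
      _ = _ := by ring
  exact Nat.le_of_mul_le_mul_right h4 (by positivity)

end Pool.Agent.J6H71.Sum3L
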