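import Mathlib
import Pool.Agent.J6H71.Sum3L.Hidden

/-!
# Runs of local programs on random and on planted instances
-/

set_option autoImplicit false

namespace Pool.Agent.J6H71.Sum3L

open Finset Pool.Agent.J6H71.Sum3

variable {m n N U : ℕ} (E : Fin n ≃ (Fin 3 × Fin m) ⊕ Fin (n - 3 * m))

/-- The function chosen after `τ` may depend on the hidden number of the class `c`. -/
def Dep (D : List ℕ → Finset (Fin n)) (s : Fin m × Fin m × Fin m) (τ : List ℕ) (c : Fin 3) : Prop :=
  E.symm (Sum.inl (c, sel s c)) ∈ D τ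

open Classical in
/-- None of the first `t` functions depends on two hidden numbers, and at most `K` of them depend on
hidden numbers. -/
def Good (D : List ℕ → Finset (Fin n)) (K : ℕ) (s : Fin m × Fin m × Fin m) (ρ : ℕ → List ℕ)
    (t : ℕ) : Prop :=
  (∀ t' < t, ∀ c c', Dep E D s (ρ t') c → Dep E D s (ρ t') c' → c = c') ∧
    ((range t).filter (fun t' => ∃ c, Dep E D s (ρ t') c)).card ≤ K

lemma Good.mono {D : List ℕ → Finset (Fin n)} {K : ℕ} {s : Fin m × Fin m × Fin m}
    {ρ : ℕ → List ℕ} {t t' : ℕ} (h : Good E D K s ρ t') (htt : t ≤ t') : Good E D K s ρ t := by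
  classical
  refine ⟨fun a ha => h.1 a (by omega), le_trans (Finset.card_le_card ?_) h.2⟩
  exact Finset.filter_subset_filter _ (Finset.range_subset_range.mpr htt)

lemma Good.congr {D : List ℕ → Finset (Fin n)} {K : ℕ} {s : Fin m × Fin m × Fin m}
    {ρ ρ' : ℕ → List ℕ} {t : ℕ} (h : Good E D K s ρ t) (he : ∀ a < t, ρ a = ρ' a) :
    Good E D K s ρ' t := by
  classical
  refine ⟨fun a ha c c' => by rw [← he a ha]; exact h.1 a ha c c', ?_⟩
  have : (range t).filter (fun t' => ∃ c, Dep E D s (ρ' t') c) =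
      (range t).filter (fun t' => ∃ c, Dep E D s (ρ t') c) := by
    apply Finset.filter_congr
    intro a ha
    rw [he a (Finset.mem_range.mp ha)]
  rw [this]; exact h.2

open Classical in
/-- The last good time of the formal run, at most `T`. -/
noncomputable def tstar (P : LProg n) (D : List ℕ → Finset (Fin n)) (K T : ℕ)
    (z : Fin 3 × Fin m → Fin U) (s : Fin m × Fin m × Fin m) : ℕ :=
  Nat.findGreatest (fun t => Good E D K s (fun t' => (Sum3.trans (hv E P z s) t').1) t) T

lemma tstar_le (P : LProg n) (D : List ℕ → Finset (Fin n)) (K T : ℕ)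
    (z : Fin 3 × Fin m → Fin U) (s : Fin m × Fin m × Fin m) : tstar E P D K T z s ≤ T := by
  classical
  exact Nat.findGreatest_le T

lemma tstar_good (P : LProg n) (D : List ℕ → Finset (Fin n)) (K T : ℕ)
    (z : Fin 3 × Fin m → Fin U) (s : Fin m × Fin m × Fin m) :
    Good E D K s (fun t' => (Sum3.trans (hv E P z s) t').1) (tstar E P D K T z s) := by
  classical
  have h0 : Good E D K s (fun t' => (Sum3.trans (hv E P z s) t').1) 0 := by
    refine ⟨fun a ha => by omega, by simp⟩
  exact Nat.findGreatest_spec (P := fun t =>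
    Good E D K s (fun t' => (Sum3.trans (hv E P z s) t').1) t) (Nat.zero_le T) h0

lemma tstar_max (P : LProg n) (D : List ℕ → Finset (Fin n)) (K T : ℕ)
    (z : Fin 3 × Fin m → Fin U) (s : Fin m × Fin m × Fin m) (h : tstar E P D K T z s < T) :
    ¬ Good E D K s (fun t' => (Sum3.trans (hv E P z s) t').1) (tstar E P D K T z s + 1) := by
  classical
  exact Nat.findGreatest_is_greatest (P := fun t =>
    Good E D K s (fun t' => (Sum3.trans (hv E P z s) t').1) t) (Nat.lt_succ_self _) h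

/-- The list of the formal values before the last good time. -/
noncomputable def lst (P : LProg n) (D : List ℕ → Finset (Fin n)) (K T : ℕ)
    (z : Fin 3 × Fin m → Fin U) (s : Fin m × Fin m × Fin m) : List ((Fin 3 → ℝ) → ℝ) :=
  (Sum3.trans (hv E P z s) (tstar E P D K T z s)).2

/-- The run on the random instance and the run on the planted instance agree. -/
theorem coupling (P : LProg n) (D : List ℕ → Finset (Fin n)) (K T : ℕ)
    (z : Fin 3 × Fin m → Fin U) (s : Fin m × Fin m × Fin m)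
    (h0 : ∀ u ∈ lst E P D K T z s, ∀ v ∈ lst E P D K T z s,
      u (pt (yn z s)) = v (pt (yn z s)) → u = v)
    (h1 : ∀ u ∈ lst E P D K T z s, ∀ v ∈ lst E P D K T z s,
      u (ptp (yn z s)) = v (ptp (yn z s)) → u = v)
    (hg : Good E D K s (fun t => P.tr (inst E (toInt z)) t) T) (t : ℕ) (ht : t ≤ T) :
    P.tr (inst E (plant z s)) t = P.tr (inst E (toInt z)) t := by
  have e0 : P.value (inst E (toInt z)) = fun τ => hv E P z s τ (pt (yn z s)) := by
    funext τ; exact value_null E P z s τ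
  have e1 : P.value (inst E (plant z s)) = fun τ => hv E P z s τ (ptp (yn z s)) := by
    funext τ; exact value_plant E P z s τ
  have a0 : ∀ t ≤ tstar E P D K T z s, P.tr (inst E (toInt z)) t =
      (Sum3.trans (hv E P z s) t).1 := by
    intro t ht
    unfold LProg.tr
    rw [e0]
    exact trans_eq (hv E P z s) (fun u => u (pt (yn z s))) _ h0 t ht
  have a1 : ∀ t ≤ tstar E P D K T z s, P.tr (inst E (plant z s)) t =
      (Sum3.trans (hv E P z s) t).1 := by
    intro t ht
    unfold LProg.tr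
    rw [e1]
    exact trans_eq (hv E P z s) (fun u => u (ptp (yn z s))) _ h1 t ht
  have hT : tstar E P D K T z s = T := by
    by_contra hne
    have hlt : tstar E P D K T z s < T := lt_of_le_of_ne (tstar_le E P D K T z s) hne
    apply tstar_max E P D K T z s hlt
    apply Good.congr E (Good.mono E hg (t := tstar E P D K T z s + 1) (by omega))
    intro a ha
    exact a0 a (by omega)
  rw [a0 t (by omega), a1 t (by omega)]

lemma hv_congr (P : LProg n) (D : List ℕ → Finset (Fin n))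
    (hD : ∀ τ, ∀ x y : Fin n → ℝ, (∀ i ∈ D τ, x i = y i) → P.fn τ x = P.fn τ y)
    (z : Fin 3 × Fin m → Fin U) (s : Fin m × Fin m × Fin m) (τ : List ℕ) (y y' : Fin 3 → ℝ)
    (h : ∀ c, Dep E D s τ c → y c = y' c) : hv E P z s τ y = hv E P z s τ y' := by
  unfold hv
  apply hD
  intro p hp
  unfold xr
  rcases hE : E p with ⟨c, i⟩ | q
  · simp only [Sum.elim_inl]
    unfold rep
    by_cases hi : i = sel s c
    · subst hi
      simp only [if_true]
      rw [h c]
      unfold Dep
      rw [← hE]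
      simpa using hp
    · simp only [hi, if_false]
  · simp only [Sum.elim_inr]

lemma oneVar_of_mem (P : LProg n) (D : List ℕ → Finset (Fin n)) (K T : ℕ)
    (hD : ∀ τ, ∀ x y : Fin n → ℝ, (∀ i ∈ D τ, x i = y i) → P.fn τ x = P.fn τ y)
    (z : Fin 3 × Fin m → Fin U) (s : Fin m × Fin m × Fin m) (u : (Fin 3 → ℝ) → ℝ)
    (hu : u ∈ lst E P D K T z s) : OneVar u := by
  obtain ⟨t', ht', rfl⟩ := mem_trans _ _ _ hu
  have hg := (tstar_good E P D K T z s).1 t' ht'
  by_cases hex : ∃ c, Dep E D s (Sum3.trans (hv E P z s) t').1 c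
  · obtain ⟨c, hc⟩ := hex
    refine ⟨c, fun y y' hyy => ?_⟩
    apply hv_congr E P D hD
    intro c' hc'
    rw [← hg c c' hc hc']; exact hyy
  · push Not at hex
    refine ⟨0, fun y y' _ => ?_⟩
    apply hv_congr E P D hD
    intro c' hc'
    exact absurd hc' (hex c')

lemma tame_of_mem (P : LProg n) (D : List ℕ → Finset (Fin n)) (K T Δ : ℕ)
    (hΔ : ∀ τ τ', Tame Δ (P.fn τ) (P.fn τ'))
    (z : Fin 3 × Fin m → Fin U) (s : Fin m × Fin m × Fin m) (u v : (Fin 3 → ℝ) → ℝ)
    (hu : u ∈ lst E P D K T z s) (hv' : v ∈ lst E P D K T z s) : Tame Δ u v := by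
  obtain ⟨t', -, rfl⟩ := mem_trans _ _ _ hu
  obtain ⟨t'', -, rfl⟩ := mem_trans _ _ _ hv'
  exact tame_hv E P Δ z s _ _ (hΔ _ _)

open Classical in
/-- There are few nonconstant formal values. -/
lemma card_nonconst_le (P : LProg n) (D : List ℕ → Finset (Fin n)) (K T : ℕ)
    (hD : ∀ τ, ∀ x y : Fin n → ℝ, (∀ i ∈ D τ, x i = y i) → P.fn τ x = P.fn τ y)
    (z : Fin 3 × Fin m → Fin U) (s : Fin m × Fin m × Fin m) :
    ((lst E P D K T z s).toFinset.filter (fun u => ∃ y y' : Fin 3 → ℝ, u y ≠ u y')).card ≤ K := by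
  have hg := (tstar_good E P D K T z s).2
  refine le_trans ?_ hg
  have hsub : ((lst E P D K T z s).toFinset.filter (fun u => ∃ y y' : Fin 3 → ℝ, u y ≠ u y')) ⊆
      ((range (tstar E P D K T z s)).filter
        (fun t' => ∃ c, Dep E D s (Sum3.trans (hv E P z s) t').1 c)).image
        (fun t' => hv E P z s (Sum3.trans (hv E P z s) t').1) := by
    intro u hu
    rw [Finset.mem_filter, List.mem_toFinset] at hu
    obtain ⟨hu, y, y', hyy⟩ := hu
    obtain ⟨t', ht', rfl⟩ := mem_trans _ _ _ hu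
    rw [Finset.mem_image]
    refine ⟨t', ?_, rfl⟩
    rw [Finset.mem_filter, Finset.mem_range]
    refine ⟨ht', ?_⟩
    by_contra hcon
    push Not at hcon
    apply hyy
    apply hv_congr E P D hD
    intro c hc
    exact absurd hc (hcon c)
  exact (Finset.card_le_card hsub).trans Finset.card_image_le

open Classical in
/-- Union bound over pairs of formal values. -/
lemma card_pairs_le (L : List ((Fin 3 → ℝ) → ℝ)) (K T Δ' : ℕ) (hL : L.length ≤ T)
    (hK : (L.toFinset.filter (fun u => ∃ y y' : Fin 3 → ℝ, u y ≠ u y')).card ≤ K)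
    (ψ : (Fin 3 → Fin U) → (Fin 3 → ℝ))
    (h : ∀ u ∈ L, ∀ v ∈ L, u ≠ v →
      (univ.filter (fun y : Fin 3 → Fin U => u (ψ y) = v (ψ y))).card * U ≤ Δ' * U ^ 3) :
    (univ.filter (fun y : Fin 3 → Fin U =>
      ¬ ∀ u ∈ L, ∀ v ∈ L, u (ψ y) = v (ψ y) → u = v)).card * U ≤ (K * T * Δ') * U ^ 3 := by
  have hsub : (univ.filter (fun y : Fin 3 → Fin U =>
      ¬ ∀ u ∈ L, ∀ v ∈ L, u (ψ y) = v (ψ y) → u = v)) ⊆
      ((L.toFinset.filter (fun u => ∃ y y' : Fin 3 → ℝ, u y ≠ u y')) ×ˢ L.toFinset).biUnion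
        (fun p => univ.filter (fun y : Fin 3 → Fin U => p.1 ≠ p.2 ∧ p.1 (ψ y) = p.2 (ψ y))) := by
    intro y hy
    rw [Finset.mem_filter] at hy
    have h := hy.2
    push Not at h
    obtain ⟨u, hu, v, hv, h1, h2⟩ := h
    rw [Finset.mem_biUnion]
    by_cases hcu : ∃ y y' : Fin 3 → ℝ, u y ≠ u y'
    · refine ⟨(u, v), ?_, ?_⟩
      · rw [Finset.mem_product, Finset.mem_filter, List.mem_toFinset, List.mem_toFinset]
        exact ⟨⟨hu, hcu⟩, hv⟩
      · simp only [Finset.mem_filter, Finset.mem_univ, true_and]; exact ⟨h2, h1⟩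
    · by_cases hcv : ∃ y y' : Fin 3 → ℝ, v y ≠ v y'
      · refine ⟨(v, u), ?_, ?_⟩
        · rw [Finset.mem_product, Finset.mem_filter, List.mem_toFinset, List.mem_toFinset]
          exact ⟨⟨hv, hcv⟩, hu⟩
        · simp only [Finset.mem_filter, Finset.mem_univ, true_and]; exact ⟨h2.symm, h1.symm⟩
      · exfalso
        push Not at hcu hcv
        apply h2
        funext y'
        rw [hcu y' (ψ y), hcv y' (ψ y), h1]
  calc _ ≤ (∑ p ∈ (L.toFinset.filter (fun u => ∃ y y' : Fin 3 → ℝ, u y ≠ u y')) ×ˢ L.toFinset,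
        (univ.filter (fun y : Fin 3 → Fin U => p.1 ≠ p.2 ∧ p.1 (ψ y) = p.2 (ψ y))).card) * U :=
        Nat.mul_le_mul_right _ ((Finset.card_le_card hsub).trans Finset.card_biUnion_le)
    _ = ∑ p ∈ (L.toFinset.filter (fun u => ∃ y y' : Fin 3 → ℝ, u y ≠ u y')) ×ˢ L.toFinset,
        (univ.filter (fun y : Fin 3 → Fin U => p.1 ≠ p.2 ∧ p.1 (ψ y) = p.2 (ψ y))).card * U := by
        rw [Finset.sum_mul]
    _ ≤ ∑ _p ∈ (L.toFinset.filter (fun u => ∃ y y' : Fin 3 → ℝ, u y ≠ u y')) ×ˢ L.toFinset,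
        Δ' * U ^ 3 := by
        apply Finset.sum_le_sum
        rintro ⟨u, v⟩ hp
        rw [Finset.mem_product, Finset.mem_filter, List.mem_toFinset, List.mem_toFinset] at hp
        by_cases huv : u = v
        · subst huv; simp
        · refine le_trans (Nat.mul_le_mul_right _ (Finset.card_le_card ?_))
            (h u hp.1.1 v hp.2 huv)
          intro y hy
          simp only [Finset.mem_filter, Finset.mem_univ, true_and] at hy ⊢
          exact hy.2
    _ = ((L.toFinset.filter (fun u => ∃ y y' : Fin 3 → ℝ, u y ≠ u y')) ×ˢ L.toFinset).card *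
        (Δ' * U ^ 3) := by rw [Finset.sum_const, smul_eq_mul]
    _ ≤ (K * T) * (Δ' * U ^ 3) := by
        apply Nat.mul_le_mul_right
        rw [Finset.card_product]
        exact Nat.mul_le_mul hK ((List.toFinset_card_le _).trans hL)
    _ = _ := by ring

lemma tstar_ov (P : LProg n) (D : List ℕ → Finset (Fin n)) (K T : ℕ)
    (z : Fin 3 × Fin m → Fin U) (s : Fin m × Fin m × Fin m) (y : Fin 3 → Fin U) :
    tstar E P D K T (ov z s y) s = tstar E P D K T z s := by
  unfold tstar; rw [hv_ov]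

lemma lst_ov (P : LProg n) (D : List ℕ → Finset (Fin n)) (K T : ℕ)
    (z : Fin 3 × Fin m → Fin U) (s : Fin m × Fin m × Fin m) (y : Fin 3 → Fin U) :
    lst E P D K T (ov z s y) s = lst E P D K T z s := by
  unfold lst; rw [hv_ov, tstar_ov]

open Classical in
theorem card_coll0 (P : LProg n) (D : List ℕ → Finset (Fin n)) (K T Δ : ℕ)
    (hD : ∀ τ, ∀ x y : Fin n → ℝ, (∀ i ∈ D τ, x i = y i) → P.fn τ x = P.fn τ y)
    (hΔ : ∀ τ τ', Tame Δ (P.fn τ) (P.fn τ')) (s : Fin m × Fin m × Fin m) :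
    (univ.filter (fun z : Fin 3 × Fin m → Fin U =>
      ¬ ∀ u ∈ lst E P D K T z s, ∀ v ∈ lst E P D K T z s,
        u (pt (yn z s)) = v (pt (yn z s)) → u = v)).card * U ≤ (K * T * (3 * Δ)) * U ^ (3 * m) := by
  apply card_fiber_le s
  intro z
  simp only [lst_ov, yn_ov]
  apply card_pairs_le (lst E P D K T z s) K T (3 * Δ)
  · unfold lst
    rw [trans_length]
    exact tstar_le E P D K T z s
  · exact card_nonconst_le E P D K T hD z s
  · intro u hu v hv huv
    exact card_eq_le u v (tame_of_mem E P D K T Δ hΔ z s u v hu hv) huv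

open Classical in
theorem card_coll1 (P : LProg n) (D : List ℕ → Finset (Fin n)) (K T Δ : ℕ)
    (hD : ∀ τ, ∀ x y : Fin n → ℝ, (∀ i ∈ D τ, x i = y i) → P.fn τ x = P.fn τ y)
    (hΔ : ∀ τ τ', Tame Δ (P.fn τ) (P.fn τ')) (s : Fin m × Fin m × Fin m) :
    (univ.filter (fun z : Fin 3 × Fin m → Fin U =>
      ¬ ∀ u ∈ lst E P D K T z s, ∀ v ∈ lst E P D K T z s,
        u (ptp (yn z s)) = v (ptp (yn z s)) → u = v)).card * U ≤
      (K * T * (2 * Δ)) * U ^ (3 * m) := by
  apply card_fiber_le s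
  intro z
  simp only [lst_ov, yn_ov]
  apply card_pairs_le (lst E P D K T z s) K T (2 * Δ)
  · unfold lst
    rw [trans_length]
    exact tstar_le E P D K T z s
  · exact card_nonconst_le E P D K T hD z s
  · intro u hu v hv huv
    exact card_eq_plane_le u v (tame_of_mem E P D K T Δ hΔ z s u v hu hv) huv
      (oneVar_of_mem E P D K T hD z s u hu) (oneVar_of_mem E P D K T hD z s v hv)

end Pool.Agent.J6H71.Sum3L
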