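import Mathlib
import Pool.Agent.J6H71.Sum3L.Run

/-!
# The main inequality for local programs
-/

set_option autoImplicit false

namespace Pool.Agent.J6H71.Sum3L

open Finset Pool.Agent.J6H71.Sum3

variable {m n N U : ℕ} (E : Fin n ≃ (Fin 3 × Fin m) ⊕ Fin (n - 3 * m))

open Classical in
lemma sum_classes {r : ℕ} (Dt : Finset (Fin n)) (hDt : Dt.card ≤ r) :
    (univ.filter (fun i : Fin m => E.symm (Sum.inl (0, i)) ∈ Dt)).card +
    (univ.filter (fun i : Fin m => E.symm (Sum.inl (1, i)) ∈ Dt)).card +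
    (univ.filter (fun i : Fin m => E.symm (Sum.inl (2, i)) ∈ Dt)).card ≤ r := by
  have h1 : (univ.filter (fun l : Fin 3 × Fin m => E.symm (Sum.inl l) ∈ Dt)).card ≤ Dt.card := by
    apply Finset.card_le_card_of_injOn (fun l => E.symm (Sum.inl l))
    · intro l hl
      simpa using hl
    · intro a _ b _ hab
      exact Sum.inl_injective (E.symm.injective hab)
  have h2 : (univ.filter (fun l : Fin 3 × Fin m => E.symm (Sum.inl l) ∈ Dt)).card =
      ∑ c : Fin 3, (univ.filter (fun i : Fin m => E.symm (Sum.inl (c, i)) ∈ Dt)).card := by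
    simp only [Finset.card_filter]
    rw [Fintype.sum_prod_type]
  rw [h2, Fin.sum_univ_three] at h1
  exact h1.trans hDt

open Classical in
lemma card_two_le {r : ℕ} (D : List ℕ → Finset (Fin n)) (hr : ∀ τ, (D τ).card ≤ r) (τ : List ℕ) :
    (univ.filter (fun s : Fin m × Fin m × Fin m =>
      ∃ c c', Dep E D s τ c ∧ Dep E D s τ c' ∧ c ≠ c')).card ≤ r ^ 2 * m := by
  obtain ⟨d0, hd0⟩ : ∃ d0, d0 = univ.filter (fun i : Fin m => E.symm (Sum.inl (0, i)) ∈ D τ) :=
    ⟨_, rfl⟩
  obtain ⟨d1, hd1⟩ : ∃ d1, d1 = univ.filter (fun i : Fin m => E.symm (Sum.inl (1, i)) ∈ D τ) :=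
    ⟨_, rfl⟩
  obtain ⟨d2, hd2⟩ : ∃ d2, d2 = univ.filter (fun i : Fin m => E.symm (Sum.inl (2, i)) ∈ D τ) :=
    ⟨_, rfl⟩
  have hs := sum_classes (m := m) E (D τ) (hr τ)
  rw [← hd0, ← hd1, ← hd2] at hs
  have hsub : (univ.filter (fun s : Fin m × Fin m × Fin m =>
      ∃ c c', Dep E D s τ c ∧ Dep E D s τ c' ∧ c ≠ c')) ⊆
      (d0 ×ˢ (d1 ×ˢ (univ : Finset (Fin m)))) ∪ ((d0 ×ˢ ((univ : Finset (Fin m)) ×ˢ d2)) ∪
        ((univ : Finset (Fin m)) ×ˢ (d1 ×ˢ d2))) := by
    rintro ⟨i, j, k⟩ h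
    rw [Finset.mem_filter] at h
    obtain ⟨-, c, c', h1, h2, h3⟩ := h
    have e0 : Dep E D (i, j, k) τ 0 → i ∈ d0 := by
      intro h; rw [hd0]; simpa [Dep, sel] using h
    have e1 : Dep E D (i, j, k) τ 1 → j ∈ d1 := by
      intro h; rw [hd1]; simpa [Dep, sel] using h
    have e2 : Dep E D (i, j, k) τ 2 → k ∈ d2 := by
      intro h; rw [hd2]; simpa [Dep, sel] using h
    simp only [Finset.mem_union, Finset.mem_product, Finset.mem_univ, and_true, true_and]
    fin_cases c <;> fin_cases c' <;> first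
      | exact absurd rfl h3
      | exact Or.inl ⟨e0 h1, e1 h2⟩
      | exact Or.inl ⟨e0 h2, e1 h1⟩
      | exact Or.inr (Or.inl ⟨e0 h1, e2 h2⟩)
      | exact Or.inr (Or.inl ⟨e0 h2, e2 h1⟩)
      | exact Or.inr (Or.inr ⟨e1 h1, e2 h2⟩)
      | exact Or.inr (Or.inr ⟨e1 h2, e2 h1⟩)
  refine (Finset.card_le_card hsub).trans ?_
  refine (Finset.card_union_le _ _).trans ?_
  refine (Nat.add_le_add_left (Finset.card_union_le _ _) _).trans ?_
  simp only [Finset.card_product, Finset.card_univ, Fintype.card_fin]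
  have h : d0.card * d1.card + d0.card * d2.card + d1.card * d2.card ≤ r ^ 2 := by
    calc _ ≤ (d0.card + d1.card + d2.card) ^ 2 := by nlinarith
      _ ≤ r ^ 2 := Nat.pow_le_pow_left hs 2
  calc _ = (d0.card * d1.card + d0.card * d2.card + d1.card * d2.card) * m := by ring
    _ ≤ r ^ 2 * m := Nat.mul_le_mul_right _ h

open Classical in
lemma card_one_le {r : ℕ} (D : List ℕ → Finset (Fin n)) (hr : ∀ τ, (D τ).card ≤ r) (τ : List ℕ) :
    (univ.filter (fun s : Fin m × Fin m × Fin m => ∃ c, Dep E D s τ c)).card ≤ r * m ^ 2 := by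
  obtain ⟨d0, hd0⟩ : ∃ d0, d0 = univ.filter (fun i : Fin m => E.symm (Sum.inl (0, i)) ∈ D τ) :=
    ⟨_, rfl⟩
  obtain ⟨d1, hd1⟩ : ∃ d1, d1 = univ.filter (fun i : Fin m => E.symm (Sum.inl (1, i)) ∈ D τ) :=
    ⟨_, rfl⟩
  obtain ⟨d2, hd2⟩ : ∃ d2, d2 = univ.filter (fun i : Fin m => E.symm (Sum.inl (2, i)) ∈ D τ) :=
    ⟨_, rfl⟩
  have hs := sum_classes (m := m) E (D τ) (hr τ)
  rw [← hd0, ← hd1, ← hd2] at hs
  have hsub : (univ.filter (fun s : Fin m × Fin m × Fin m => ∃ c, Dep E D s τ c)) ⊆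
      (d0 ×ˢ ((univ : Finset (Fin m)) ×ˢ (univ : Finset (Fin m)))) ∪
        (((univ : Finset (Fin m)) ×ˢ (d1 ×ˢ (univ : Finset (Fin m)))) ∪
        ((univ : Finset (Fin m)) ×ˢ ((univ : Finset (Fin m)) ×ˢ d2))) := by
    rintro ⟨i, j, k⟩ h
    rw [Finset.mem_filter] at h
    obtain ⟨-, c, h1⟩ := h
    have e0 : Dep E D (i, j, k) τ 0 → i ∈ d0 := by
      intro h; rw [hd0]; simpa [Dep, sel] using h
    have e1 : Dep E D (i, j, k) τ 1 → j ∈ d1 := by
      intro h; rw [hd1]; simpa [Dep, sel] using h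
    have e2 : Dep E D (i, j, k) τ 2 → k ∈ d2 := by
      intro h; rw [hd2]; simpa [Dep, sel] using h
    simp only [Finset.mem_union, Finset.mem_product, Finset.mem_univ, and_true, true_and]
    fin_cases c
    · exact Or.inl (e0 h1)
    · exact Or.inr (Or.inl (e1 h1))
    · exact Or.inr (Or.inr (e2 h1))
  refine (Finset.card_le_card hsub).trans ?_
  refine (Finset.card_union_le _ _).trans ?_
  refine (Nat.add_le_add_left (Finset.card_union_le _ _) _).trans ?_
  simp only [Finset.card_product, Finset.card_univ, Fintype.card_fin]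
  calc _ = (d0.card + d1.card + d2.card) * m ^ 2 := by ring
    _ ≤ r * m ^ 2 := Nat.mul_le_mul_right _ hs

open Classical in
theorem card_not_good {r : ℕ} (D : List ℕ → Finset (Fin n)) (hr : ∀ τ, (D τ).card ≤ r) (K T : ℕ)
    (ρ : ℕ → List ℕ) :
    ((univ.filter (fun s : Fin m × Fin m × Fin m => ¬ Good E D K s ρ T)).card : ℝ) ≤
      T * r ^ 2 * m + T * r * m ^ 2 / (K + 1) := by
  have h1 : (univ.filter (fun s : Fin m × Fin m × Fin m =>
      ∃ t ∈ range T, ∃ c c', Dep E D s (ρ t) c ∧ Dep E D s (ρ t) c' ∧ c ≠ c')).card ≤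
      T * (r ^ 2 * m) := by
    have hsub : (univ.filter (fun s : Fin m × Fin m × Fin m =>
      ∃ t ∈ range T, ∃ c c', Dep E D s (ρ t) c ∧ Dep E D s (ρ t) c' ∧ c ≠ c')) ⊆
      (range T).biUnion (fun t => univ.filter (fun s : Fin m × Fin m × Fin m =>
        ∃ c c', Dep E D s (ρ t) c ∧ Dep E D s (ρ t) c' ∧ c ≠ c')) := by
      intro s hs
      rw [Finset.mem_filter] at hs
      obtain ⟨-, t, ht, h⟩ := hs
      rw [Finset.mem_biUnion]
      exact ⟨t, ht, by simpa using h⟩
    refine (Finset.card_le_card hsub).trans (Finset.card_biUnion_le.trans ?_)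
    calc _ ≤ ∑ _t ∈ range T, r ^ 2 * m := Finset.sum_le_sum (fun t _ => card_two_le E D hr (ρ t))
      _ = T * (r ^ 2 * m) := by simp
  have h2 : (univ.filter (fun s : Fin m × Fin m × Fin m =>
      K < ((range T).filter (fun t => ∃ c, Dep E D s (ρ t) c)).card)).card * (K + 1) ≤
      T * (r * m ^ 2) := by
    calc _ = ∑ _s ∈ univ.filter (fun s : Fin m × Fin m × Fin m =>
          K < ((range T).filter (fun t => ∃ c, Dep E D s (ρ t) c)).card), (K + 1) := by
          rw [Finset.sum_const, smul_eq_mul]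
      _ ≤ ∑ s ∈ univ.filter (fun s : Fin m × Fin m × Fin m =>
          K < ((range T).filter (fun t => ∃ c, Dep E D s (ρ t) c)).card),
          ((range T).filter (fun t => ∃ c, Dep E D s (ρ t) c)).card := by
          apply Finset.sum_le_sum
          intro s hs
          rw [Finset.mem_filter] at hs
          exact hs.2
      _ ≤ ∑ s : Fin m × Fin m × Fin m,
          ((range T).filter (fun t => ∃ c, Dep E D s (ρ t) c)).card :=
          Finset.sum_le_sum_of_subset (Finset.filter_subset _ _)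
      _ = ∑ t ∈ range T, (univ.filter (fun s : Fin m × Fin m × Fin m =>
          ∃ c, Dep E D s (ρ t) c)).card := by
          simp only [Finset.card_filter]
          rw [Finset.sum_comm]
      _ ≤ ∑ _t ∈ range T, r * m ^ 2 := Finset.sum_le_sum (fun t _ => card_one_le E D hr (ρ t))
      _ = T * (r * m ^ 2) := by simp
  have hsub : (univ.filter (fun s : Fin m × Fin m × Fin m => ¬ Good E D K s ρ T)) ⊆
      (univ.filter (fun s : Fin m × Fin m × Fin m =>
      ∃ t ∈ range T, ∃ c c', Dep E D s (ρ t) c ∧ Dep E D s (ρ t) c' ∧ c ≠ c')) ∪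
      (univ.filter (fun s : Fin m × Fin m × Fin m =>
      K < ((range T).filter (fun t => ∃ c, Dep E D s (ρ t) c)).card)) := by
    intro s hs
    simp only [Finset.mem_filter, Finset.mem_univ, true_and, Finset.mem_union] at hs ⊢
    by_contra hcon
    push Not at hcon
    apply hs
    refine ⟨fun t ht c c' hc hc' => ?_, ?_⟩
    · exact hcon.1 t (Finset.mem_range.mpr ht) c c' hc hc'
    · exact hcon.2
  have h3 := (Finset.card_le_card hsub).trans (Finset.card_union_le _ _)
  have h1r : ((univ.filter (fun s : Fin m × Fin m × Fin m =>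
      ∃ t ∈ range T, ∃ c c', Dep E D s (ρ t) c ∧ Dep E D s (ρ t) c' ∧ c ≠ c')).card : ℝ) ≤
      T * (r ^ 2 * m) := by exact_mod_cast h1
  have h2r : ((univ.filter (fun s : Fin m × Fin m × Fin m =>
      K < ((range T).filter (fun t => ∃ c, Dep E D s (ρ t) c)).card)).card : ℝ) ≤
      T * r * m ^ 2 / (K + 1) := by
    rw [le_div_iff₀ (by positivity)]
    have : ((univ.filter (fun s : Fin m × Fin m × Fin m =>
      K < ((range T).filter (fun t => ∃ c, Dep E D s (ρ t) c)).card)).card : ℝ) * (K + 1) ≤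
      T * (r * m ^ 2) := by exact_mod_cast h2
    linarith
  have h3r : ((univ.filter (fun s : Fin m × Fin m × Fin m => ¬ Good E D K s ρ T)).card : ℝ) ≤
      ((univ.filter (fun s : Fin m × Fin m × Fin m =>
      ∃ t ∈ range T, ∃ c c', Dep E D s (ρ t) c ∧ Dep E D s (ρ t) c' ∧ c ≠ c')).card : ℝ) +
      ((univ.filter (fun s : Fin m × Fin m × Fin m =>
      K < ((range T).filter (fun t => ∃ c, Dep E D s (ρ t) c)).card)).card : ℝ) := by
    exact_mod_cast h3
  linarith

lemma lwithin_unique (P : LProg n) (x : Fin n → ℤ) (T : ℕ) (h1 : P.Within x T true)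
    (h2 : P.Within x T false) : False := by
  obtain ⟨t, -, ht, ht'⟩ := h1
  obtain ⟨s, -, hs, hs'⟩ := h2
  rcases lt_trichotomy t s with h | h | h
  · have := hs' t h
    rw [ht] at this; simp at this
  · subst h
    rw [ht] at hs; simp at hs
  · have := ht' s h
    rw [hs] at this; simp at this

lemma within_congr (P : LProg n) (x x' : Fin n → ℤ) (T : ℕ) (b : Bool)
    (h : ∀ t ≤ T, P.tr x' t = P.tr x t) : P.Within x' T b ↔ P.Within x T b := by
  unfold LProg.Within LProg.Answers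
  constructor
  · rintro ⟨t, ht, h1, h2⟩
    refine ⟨t, ht, by rw [← h t ht]; exact h1, fun s hs => ?_⟩
    rw [← h s (hs.le.trans ht)]; exact h2 s hs
  · rintro ⟨t, ht, h1, h2⟩
    refine ⟨t, ht, by rw [h t ht]; exact h1, fun s hs => ?_⟩
    rw [h s (hs.le.trans ht)]; exact h2 s hs

open Classical in
theorem main_ineq (E : Fin n ≃ (Fin 3 × Fin m) ⊕ Fin (n - 3 * m)) (hm : 0 < m) (hU : 0 < U)
    (hN : 32 * U + 5 ≤ N) (hn : 16 * n + 11 ≤ N) (Ω : Type*) [Fintype Ω] (μ : Ω → ℝ)
    (hμ0 : ∀ ω, 0 ≤ μ ω) (hμ1 : ∑ ω, μ ω = 1) (P : Ω → LProg n) (r Δ K T : ℕ)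
    (hloc : ∀ ω τ, Local r ((P ω).fn τ)) (htame : ∀ ω τ τ', Tame Δ ((P ω).fn τ) ((P ω).fn τ'))
    (hP : ∀ x, Valid n N x →
      2 / 3 ≤ ∑ ω, μ ω * (if (P ω).Within x T (decide (Sum3.HasSum x)) then (1 : ℝ) else 0)) :
    (1 : ℝ) / 3 ≤ (6 * m ^ 2 + m + m ^ 3 + 5 * (K * T * Δ)) / U +
      (T * r ^ 2 / m ^ 2 + T * r / (m * (K + 1))) := by
  obtain ⟨Z, hZ⟩ : ∃ Z : ℝ, Z = (U : ℝ) ^ (3 * m) := ⟨_, rfl⟩
  have hUr : (0 : ℝ) < U := by exact_mod_cast hU
  have hmr : (0 : ℝ) < m := by exact_mod_cast hm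
  have hZ0 : 0 < Z := by rw [hZ]; positivity
  have hcardZ : (Fintype.card (Fin 3 × Fin m → Fin U) : ℝ) = Z := by
    rw [hZ]; simp
  have hcardS : (Fintype.card (Fin m × Fin m × Fin m) : ℝ) = (m : ℝ) ^ 3 := by
    simp only [Fintype.card_prod, Fintype.card_fin]; push_cast; ring
  have conv : ∀ (X C : ℕ), X * U ≤ C * U ^ (3 * m) → (X : ℝ) ≤ C * Z / U := by
    intro X C h
    rw [le_div_iff₀ hUr, hZ]
    exact_mod_cast h
  have hD : ∀ ω, ∃ D : List ℕ → Finset (Fin n), (∀ τ, (D τ).card ≤ r) ∧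
      ∀ τ, ∀ x y : Fin n → ℝ, (∀ i ∈ D τ, x i = y i) → (P ω).fn τ x = (P ω).fn τ y := by
    intro ω
    choose D h1 h2 using hloc ω
    exact ⟨D, h1, h2⟩
  choose D hD1 hD2 using hD
  obtain ⟨A, hA⟩ : ∃ A : Ω → (Fin n → ℤ) → ℝ,
    A = fun ω x => if (P ω).Within x T true then (1 : ℝ) else 0 := ⟨_, rfl⟩
  have hA0 : ∀ ω x, 0 ≤ A ω x := by intro ω x; rw [hA]; dsimp only; split_ifs <;> norm_num
  have hA1 : ∀ ω x, A ω x ≤ 1 := by intro ω x; rw [hA]; dsimp only; split_ifs <;> norm_num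
  -- (a)
  have ha : ∀ z : Fin 3 × Fin m → Fin U, ∑ ω, μ ω * A ω (inst E (toInt z)) ≤
      1 / 3 + (if ¬ (Valid n N (inst E (toInt z)) ∧ ¬ Sum3.HasSum (inst E (toInt z)))
        then (1 : ℝ) else 0) := by
    intro z
    split_ifs with hz
    · have h1 := hP _ hz.1
      have h2 : decide (Sum3.HasSum (inst E (toInt z))) = false := by simpa using hz.2
      rw [h2] at h1
      have h3 : ∑ ω, μ ω * A ω (inst E (toInt z)) + ∑ ω, μ ω *
          (if (P ω).Within (inst E (toInt z)) T false then (1 : ℝ) else 0) ≤ 1 := by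
        rw [← Finset.sum_add_distrib]
        refine le_trans (Finset.sum_le_sum (g := μ) ?_) hμ1.le
        intro ω _
        rw [← mul_add]
        have : A ω (inst E (toInt z)) +
            (if (P ω).Within (inst E (toInt z)) T false then (1 : ℝ) else 0) ≤ 1 := by
          rw [hA]
          dsimp only
          by_cases h1 : (P ω).Within (inst E (toInt z)) T true
          · have h2 : ¬ (P ω).Within (inst E (toInt z)) T false :=
              fun h => lwithin_unique _ _ _ h1 h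
            rw [if_pos h1, if_neg h2]; norm_num
          · rw [if_neg h1]; split_ifs <;> norm_num
        calc μ ω * _ ≤ μ ω * 1 := mul_le_mul_of_nonneg_left this (hμ0 ω)
          _ = μ ω := mul_one _
      linarith
    · calc ∑ ω, μ ω * A ω (inst E (toInt z)) ≤ ∑ ω, μ ω * 1 :=
            Finset.sum_le_sum (fun ω _ => mul_le_mul_of_nonneg_left (hA1 ω _) (hμ0 ω))
        _ = 1 := by simp [hμ1]
        _ ≤ _ := by norm_num
  -- (b)
  have hb : ∀ (s : Fin m × Fin m × Fin m) (z : Fin 3 × Fin m → Fin U),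
      2 / 3 - (if ¬ (Valid n N (inst E (plant z s)) ∧ Sum3.HasSum (inst E (plant z s)))
        then (1 : ℝ) else 0) ≤ ∑ ω, μ ω * A ω (inst E (plant z s)) := by
    intro s z
    split_ifs with hz
    · have h1 := hP _ hz.1
      have h2 : decide (Sum3.HasSum (inst E (plant z s))) = true := by simpa using hz.2
      rw [h2] at h1
      rw [hA]
      dsimp only
      linarith
    · have : 0 ≤ ∑ ω, μ ω * A ω (inst E (plant z s)) :=
        Finset.sum_nonneg (fun ω _ => mul_nonneg (hμ0 ω) (hA0 ω _))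
      linarith
  -- (c)
  have hc : ∀ ω (s : Fin m × Fin m × Fin m) (z : Fin 3 × Fin m → Fin U),
      A ω (inst E (plant z s)) ≤ A ω (inst E (toInt z)) +
      ((if ¬ ∀ u ∈ lst E (P ω) (D ω) K T z s, ∀ v ∈ lst E (P ω) (D ω) K T z s,
        u (pt (yn z s)) = v (pt (yn z s)) → u = v then (1 : ℝ) else 0) +
      (if ¬ ∀ u ∈ lst E (P ω) (D ω) K T z s, ∀ v ∈ lst E (P ω) (D ω) K T z s,
        u (ptp (yn z s)) = v (ptp (yn z s)) → u = v then (1 : ℝ) else 0) +
      (if ¬ Good E (D ω) K s (fun t => (P ω).tr (inst E (toInt z)) t) T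
        then (1 : ℝ) else 0)) := by
    intro ω s z
    by_cases h0 : ∀ u ∈ lst E (P ω) (D ω) K T z s, ∀ v ∈ lst E (P ω) (D ω) K T z s,
        u (pt (yn z s)) = v (pt (yn z s)) → u = v
    · by_cases h1 : ∀ u ∈ lst E (P ω) (D ω) K T z s, ∀ v ∈ lst E (P ω) (D ω) K T z s,
        u (ptp (yn z s)) = v (ptp (yn z s)) → u = v
      · by_cases hg : Good E (D ω) K s (fun t => (P ω).tr (inst E (toInt z)) t) T
        · rw [if_neg (not_not.mpr h0), if_neg (not_not.mpr h1), if_neg (not_not.mpr hg)]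
          have := within_congr (P ω) (inst E (toInt z)) (inst E (plant z s)) T true
            (fun t ht => coupling E (P ω) (D ω) K T z s h0 h1 hg t ht)
          rw [hA]
          dsimp only
          simp only [this]
          linarith
        · rw [if_pos hg]
          have e1 := hA1 ω (inst E (plant z s))
          have e2 := hA0 ω (inst E (toInt z))
          have e3 : (0 : ℝ) ≤ (if ¬ ∀ u ∈ lst E (P ω) (D ω) K T z s,
            ∀ v ∈ lst E (P ω) (D ω) K T z s,
            u (pt (yn z s)) = v (pt (yn z s)) → u = v then (1 : ℝ) else 0) := by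
            split_ifs <;> norm_num
          have e4 : (0 : ℝ) ≤ (if ¬ ∀ u ∈ lst E (P ω) (D ω) K T z s,
            ∀ v ∈ lst E (P ω) (D ω) K T z s,
            u (ptp (yn z s)) = v (ptp (yn z s)) → u = v then (1 : ℝ) else 0) := by
            split_ifs <;> norm_num
          linarith
      · rw [if_pos h1]
        have e1 := hA1 ω (inst E (plant z s))
        have e2 := hA0 ω (inst E (toInt z))
        have e3 : (0 : ℝ) ≤ (if ¬ ∀ u ∈ lst E (P ω) (D ω) K T z s,
          ∀ v ∈ lst E (P ω) (D ω) K T z s,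
          u (pt (yn z s)) = v (pt (yn z s)) → u = v then (1 : ℝ) else 0) := by
          split_ifs <;> norm_num
        have e4 : (0 : ℝ) ≤ (if ¬ Good E (D ω) K s (fun t => (P ω).tr (inst E (toInt z)) t) T
          then (1 : ℝ) else 0) := by split_ifs <;> norm_num
        linarith
    · rw [if_pos h0]
      have e1 := hA1 ω (inst E (plant z s))
      have e2 := hA0 ω (inst E (toInt z))
      have e3 : (0 : ℝ) ≤ (if ¬ ∀ u ∈ lst E (P ω) (D ω) K T z s,
        ∀ v ∈ lst E (P ω) (D ω) K T z s,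
        u (ptp (yn z s)) = v (ptp (yn z s)) → u = v then (1 : ℝ) else 0) := by
        split_ifs <;> norm_num
      have e4 : (0 : ℝ) ≤ (if ¬ Good E (D ω) K s (fun t => (P ω).tr (inst E (toInt z)) t) T
        then (1 : ℝ) else 0) := by split_ifs <;> norm_num
      linarith
  -- the error for a fixed program
  have herr : ∀ ω, ∑ s : Fin m × Fin m × Fin m, ∑ z : Fin 3 × Fin m → Fin U,
      A ω (inst E (plant z s)) ≤
      (m : ℝ) ^ 3 * ∑ z : Fin 3 × Fin m → Fin U, A ω (inst E (toInt z)) +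
      ((m : ℝ) ^ 3 * (5 * (K * T * Δ) * Z / U) +
        Z * (T * r ^ 2 * m + T * r * m ^ 2 / (K + 1))) := by
    intro ω
    have h1 : ∀ s : Fin m × Fin m × Fin m, ∑ z : Fin 3 × Fin m → Fin U,
        A ω (inst E (plant z s)) ≤ ∑ z : Fin 3 × Fin m → Fin U, A ω (inst E (toInt z)) +
        5 * (K * T * Δ) * Z / U + ∑ z : Fin 3 × Fin m → Fin U,
        (if ¬ Good E (D ω) K s (fun t => (P ω).tr (inst E (toInt z)) t) T
        then (1 : ℝ) else 0) := by
      intro s
      refine (Finset.sum_le_sum (fun z _ => hc ω s z)).trans ?_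
      rw [Finset.sum_add_distrib, Finset.sum_add_distrib, Finset.sum_add_distrib,
        Finset.sum_boole, Finset.sum_boole]
      have c0 := conv _ _ (card_coll0 (U := U) E (P ω) (D ω) K T Δ (hD2 ω) (htame ω) s)
      have c1 := conv _ _ (card_coll1 (U := U) E (P ω) (D ω) K T Δ (hD2 ω) (htame ω) s)
      push_cast at c0 c1
      have e : (K * T * (3 * Δ) : ℝ) * Z / U + (K * T * (2 * Δ) : ℝ) * Z / U =
          5 * (K * T * Δ) * Z / U := by ring
      linarith
    refine (Finset.sum_le_sum (fun s _ => h1 s)).trans ?_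
    rw [Finset.sum_add_distrib, Finset.sum_add_distrib, Finset.sum_const, Finset.sum_const,
      Finset.card_univ, nsmul_eq_mul, nsmul_eq_mul, hcardS, Finset.sum_comm]
    have h2 : ∑ z : Fin 3 × Fin m → Fin U, ∑ s : Fin m × Fin m × Fin m,
        (if ¬ Good E (D ω) K s (fun t => (P ω).tr (inst E (toInt z)) t) T
        then (1 : ℝ) else 0) ≤ Z * (T * r ^ 2 * m + T * r * m ^ 2 / (K + 1)) := by
      calc _ ≤ ∑ _z : Fin 3 × Fin m → Fin U, (T * r ^ 2 * m + T * r * m ^ 2 / (K + 1) : ℝ) := by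
            apply Finset.sum_le_sum
            intro z _
            rw [Finset.sum_boole]
            exact card_not_good E (D ω) (hD1 ω) K T _
        _ = _ := by rw [Finset.sum_const, Finset.card_univ, nsmul_eq_mul, hcardZ]
    linarith
  -- averages over the programs
  have hnull : ∑ ω, μ ω * ∑ z : Fin 3 × Fin m → Fin U, A ω (inst E (toInt z)) ≤
      Z / 3 + (3 * m ^ 2 + m ^ 3) * Z / U := by
    calc ∑ ω, μ ω * ∑ z : Fin 3 × Fin m → Fin U, A ω (inst E (toInt z)) =
        ∑ z : Fin 3 × Fin m → Fin U, ∑ ω, μ ω * A ω (inst E (toInt z)) := by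
          simp only [Finset.mul_sum]
          rw [Finset.sum_comm]
      _ ≤ _ := by
          refine (Finset.sum_le_sum (fun z _ => ha z)).trans ?_
          rw [Finset.sum_add_distrib, Finset.sum_const, Finset.card_univ, nsmul_eq_mul, hcardZ,
            Finset.sum_boole]
          have := conv _ _ (card_bad0 (m := m) (U := U) E hN hn)
          push_cast at this
          linarith
  have hplant : (m : ℝ) ^ 3 * (2 / 3 * Z) - (m : ℝ) ^ 3 * ((3 * m ^ 2 + m) * Z / U) ≤
      ∑ ω, μ ω * ∑ s : Fin m × Fin m × Fin m, ∑ z : Fin 3 × Fin m → Fin U,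
        A ω (inst E (plant z s)) := by
    have h11 : ∀ s : Fin m × Fin m × Fin m, 2 / 3 * Z - (3 * m ^ 2 + m) * Z / U ≤
        ∑ z : Fin 3 × Fin m → Fin U, ∑ ω, μ ω * A ω (inst E (plant z s)) := by
      intro s
      refine le_trans ?_ (Finset.sum_le_sum (fun z _ => hb s z))
      rw [Finset.sum_sub_distrib, Finset.sum_const, Finset.card_univ, nsmul_eq_mul, hcardZ,
        Finset.sum_boole]
      have := conv _ _ (card_bad1 (m := m) (U := U) E hN hn s)
      push_cast at this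
      linarith
    calc _ = ∑ _s : Fin m × Fin m × Fin m, (2 / 3 * Z - (3 * m ^ 2 + m) * Z / U) := by
          rw [Finset.sum_const, Finset.card_univ, nsmul_eq_mul, hcardS]; ring
      _ ≤ ∑ s : Fin m × Fin m × Fin m, ∑ z : Fin 3 × Fin m → Fin U,
          ∑ ω, μ ω * A ω (inst E (plant z s)) := Finset.sum_le_sum (fun s _ => h11 s)
      _ = _ := by
          simp only [Finset.mul_sum]
          rw [Finset.sum_comm]
          rw [Finset.sum_congr rfl (fun z _ => Finset.sum_comm)]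
          rw [Finset.sum_comm]
          apply Finset.sum_congr rfl
          intro ω _
          rw [Finset.sum_comm]
  have hcomb : ∑ ω, μ ω * ∑ s : Fin m × Fin m × Fin m, ∑ z : Fin 3 × Fin m → Fin U,
        A ω (inst E (plant z s)) ≤
      (m : ℝ) ^ 3 * (∑ ω, μ ω * ∑ z : Fin 3 × Fin m → Fin U, A ω (inst E (toInt z))) +
      ((m : ℝ) ^ 3 * (5 * (K * T * Δ) * Z / U) +
        Z * (T * r ^ 2 * m + T * r * m ^ 2 / (K + 1))) := by
    refine (Finset.sum_le_sum (fun ω _ => mul_le_mul_of_nonneg_left (herr ω) (hμ0 ω))).trans ?_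
    simp only [mul_add, Finset.sum_add_distrib, ← Finset.sum_mul, hμ1, one_mul]
    apply le_of_eq
    congr 1
    rw [Finset.mul_sum]
    apply Finset.sum_congr rfl
    intro ω _; ring
  have hkey : (m : ℝ) ^ 3 * Z * (1 / 3) ≤ (m : ℝ) ^ 3 * Z *
      ((6 * m ^ 2 + m + m ^ 3 + 5 * (K * T * Δ)) / U +
      (T * r ^ 2 / m ^ 2 + T * r / (m * (K + 1)))) := by
    have e1 : (m : ℝ) ^ 3 * Z *
      ((6 * m ^ 2 + m + m ^ 3 + 5 * (K * T * Δ)) / U +
      (T * r ^ 2 / m ^ 2 + T * r / (m * (K + 1)))) =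
      (m : ℝ) ^ 3 * ((3 * m ^ 2 + m) * Z / U) + (m : ℝ) ^ 3 * ((3 * m ^ 2 + m ^ 3) * Z / U) +
      ((m : ℝ) ^ 3 * (5 * (K * T * Δ) * Z / U) +
        Z * (T * r ^ 2 * m + T * r * m ^ 2 / (K + 1))) := by
      have hK : (0 : ℝ) < (K : ℝ) + 1 := by positivity
      field_simp
      ring
    rw [e1]
    have h3 := mul_le_mul_of_nonneg_left hnull (by positivity : (0 : ℝ) ≤ (m : ℝ) ^ 3)
    nlinarith [h3, hplant, hcomb]
  exact le_of_mul_le_mul_left hkey (by positivity)

end Pool.Agent.J6H71.Sum3L
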