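import Mathlib
import Pool.Agent.J6H71.Sum3L.Main

/-!
# Lower bounds for local programs
-/

set_option autoImplicit false

namespace Pool.Agent.J6H71.Sum3L

open Finset Pool.Agent.J6H71.Sum3

open Classical in
theorem bound_T {n N : ℕ} (hn : 1000 ≤ n) (hN : n ^ 3 ≤ N) (Ω : Type*) [Fintype Ω] (μ : Ω → ℝ)
    (hμ0 : ∀ ω, 0 ≤ μ ω) (hμ1 : ∑ ω, μ ω = 1) (P : Ω → LProg n) (r Δ T : ℕ)
    (hloc : ∀ ω τ, Local r ((P ω).fn τ)) (htame : ∀ ω τ τ', Tame Δ ((P ω).fn τ) ((P ω).fn τ'))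
    (hP : ∀ x, Valid n N x →
      2 / 3 ≤ ∑ ω, μ ω * (if (P ω).Within x T (decide (Sum3.HasSum x)) then (1 : ℝ) else 0)) :
    (n : ℝ) ^ 2 ≤ 1200 * (r ^ 2 * T) ∨ (n : ℝ) * N ≤ 170000 * (r * Δ * T ^ 2) := by
  by_contra hcon
  push Not at hcon
  obtain ⟨h1, h2⟩ := hcon
  obtain ⟨m, hm⟩ : ∃ m, m = n / 10 := ⟨_, rfl⟩
  obtain ⟨U, hU⟩ : ∃ U, U = (N - 5) / 32 := ⟨_, rfl⟩
  have hN3 : 1000 ^ 2 * n ≤ N := by
    calc 1000 ^ 2 * n ≤ n ^ 2 * n := by gcongr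
      _ = n ^ 3 := by ring
      _ ≤ N := hN
  have hNbig : 1000000000 ≤ N := by omega
  have hE : Fintype.card (Fin n) = Fintype.card ((Fin 3 × Fin m) ⊕ Fin (n - 3 * m)) := by
    simp only [Fintype.card_fin, Fintype.card_sum, Fintype.card_prod]
    omega
  have E := Fintype.equivOfCardEq hE
  obtain ⟨K, hK⟩ : ∃ K : ℕ, K = ⌊10 * ((T : ℝ) * r) / m⌋₊ := ⟨_, rfl⟩
  have key := main_ineq (m := m) (U := U) E (by omega) (by omega) (by omega) (by omega) Ω μ hμ0 hμ1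
    P r Δ K T hloc htame hP
  have hUlow : (0.03124 : ℝ) * N ≤ U := by
    have : N ≤ 32 * U + 36 := by omega
    have h3 : (N : ℝ) ≤ 32 * U + 36 := by exact_mod_cast this
    have h4 : (1000000000 : ℝ) ≤ N := by exact_mod_cast hNbig
    linarith
  have hnr : (1000 : ℝ) ≤ n := by exact_mod_cast hn
  have hmup : (m : ℝ) ≤ n / 10 := by
    have : 10 * m ≤ n := by omega
    have h3 : (10 : ℝ) * m ≤ n := by exact_mod_cast this
    linarith
  have hmlow : 0.099 * (n : ℝ) ≤ m := by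
    have : n ≤ 10 * m + 9 := by omega
    have h3 : (n : ℝ) ≤ 10 * m + 9 := by exact_mod_cast this
    linarith
  have hm0 : (0 : ℝ) ≤ m := Nat.cast_nonneg m
  have hNr : (n : ℝ) ^ 3 ≤ N := by exact_mod_cast hN
  have hN0 : (0 : ℝ) < N := by nlinarith [hnr, hNr, sq_nonneg (n : ℝ)]
  have hUpos : (0 : ℝ) < U := by nlinarith
  have hmpos : (0 : ℝ) < m := by linarith
  have hT0 : (0 : ℝ) ≤ T := Nat.cast_nonneg T
  have hr0 : (0 : ℝ) ≤ r := Nat.cast_nonneg r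
  have hΔ0 : (0 : ℝ) ≤ Δ := Nat.cast_nonneg Δ
  have hK0 : (0 : ℝ) ≤ K := Nat.cast_nonneg K
  have hKup : (K : ℝ) * m ≤ 10 * (T * r) := by
    have : (K : ℝ) ≤ 10 * ((T : ℝ) * r) / m := by
      rw [hK]; exact Nat.floor_le (by positivity)
    rwa [le_div_iff₀ hmpos] at this
  have hKlow : 10 * ((T : ℝ) * r) ≤ m * (K + 1) := by
    have : 10 * ((T : ℝ) * r) / m < (K : ℝ) + 1 := by
      rw [hK]; exact Nat.lt_floor_add_one _
    rw [div_lt_iff₀ hmpos] at this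
    linarith
  have e0 : (6 * (m : ℝ) ^ 2 + m + m ^ 3) ≤ 0.0342 * U := by
    have a1 : (m : ℝ) ^ 2 ≤ n ^ 2 / 100 := by nlinarith
    have a2 : (m : ℝ) ^ 3 ≤ n ^ 3 / 1000 := by
      calc (m : ℝ) ^ 3 ≤ (n / 10) ^ 3 := pow_le_pow_left₀ hm0 hmup 3
        _ = n ^ 3 / 1000 := by ring
    have a3 : (n : ℝ) ^ 2 * 1000 ≤ n ^ 3 := by nlinarith [sq_nonneg (n : ℝ)]
    have a4 : (n : ℝ) * 1000000 ≤ n ^ 3 := by nlinarith [sq_nonneg (n : ℝ)]
    nlinarith
  have e1 : 5 * ((K : ℝ) * T * Δ) ≤ 0.0952 * U := by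
    have b1 : 5 * ((K : ℝ) * T * Δ) * m ≤ 50 * (r * Δ * T ^ 2) := by
      have : (K : ℝ) * m * (T * Δ) ≤ 10 * (T * r) * (T * Δ) :=
        mul_le_mul_of_nonneg_right hKup (by positivity)
      linarith
    have b2 : 50 * ((r : ℝ) * Δ * T ^ 2) ≤ 50 / 170000 * ((n : ℝ) * N) := by linarith
    have b3 : 50 / 170000 * ((n : ℝ) * N) ≤ 0.0952 * U * m := by
      have b4 : (0.03124 * (N : ℝ)) * (0.099 * n) ≤ U * m :=
        mul_le_mul hUlow hmlow (by positivity) hUpos.le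
      have b6 : (0 : ℝ) ≤ n * N := by positivity
      linarith
    have b5 : 5 * ((K : ℝ) * T * Δ) * m ≤ 0.0952 * U * m := b1.trans (b2.trans b3)
    exact le_of_mul_le_mul_right b5 hmpos
  have e2 : (6 * (m : ℝ) ^ 2 + m + m ^ 3 + 5 * (K * T * Δ)) / U ≤ 0.1294 := by
    rw [div_le_iff₀ hUpos]
    linarith
  have e3 : (T : ℝ) * r ^ 2 / m ^ 2 ≤ 0.0851 := by
    rw [div_le_iff₀ (by positivity)]
    have a1 : (0.099 * (n : ℝ)) ^ 2 ≤ m ^ 2 := pow_le_pow_left₀ (by positivity) hmlow 2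
    have a2 : (0 : ℝ) ≤ (n : ℝ) ^ 2 := sq_nonneg _
    linarith
  have e4 : (T : ℝ) * r / (m * (K + 1)) ≤ 0.1 := by
    rw [div_le_iff₀ (by positivity)]
    linarith
  linarith

open Classical in
theorem bound_E {n N : ℕ} (hn : 1000 ≤ n) (hN : n ^ 3 ≤ N) (Ω : Type*) [Fintype Ω] (μ : Ω → ℝ)
    (hμ0 : ∀ ω, 0 ≤ μ ω) (hμ1 : ∑ ω, μ ω = 1) (P : Ω → LProg n) (r Δ : ℕ) (E : ℝ)
    (hloc : ∀ ω τ, Local r ((P ω).fn τ)) (htame : ∀ ω τ τ', Tame Δ ((P ω).fn τ) ((P ω).fn τ'))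
    (hP : ∀ x, Valid n N x → ∃ τ : Ω → ℕ,
      (∀ ω, (P ω).Answers x (τ ω) (decide (Sum3.HasSum x))) ∧ ∑ ω, μ ω * τ ω ≤ E) :
    (n : ℝ) ^ 2 ≤ 3600 * (r ^ 2 * E) ∨ (n : ℝ) * N ≤ 1530000 * (r * Δ * E ^ 2) := by
  have hE0 : 0 ≤ E := by
    have hv : Valid n N (fun i => ((i : ℕ) : ℤ)) := by
      constructor
      · intro i j h
        dsimp only at h
        exact Fin.ext (by exact_mod_cast h)
      · intro i
        have h1 := i.2
        have h2 : n ≤ n ^ 3 := Nat.le_self_pow (by norm_num) n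
        dsimp only
        rw [abs_of_nonneg (by positivity)]
        exact_mod_cast (by omega : (i : ℕ) ≤ N)
    obtain ⟨τ, -, h⟩ := hP _ hv
    refine le_trans ?_ h
    exact Finset.sum_nonneg (fun ω _ => mul_nonneg (hμ0 ω) (Nat.cast_nonneg _))
  have hfl : ((⌊3 * E⌋₊ : ℕ) : ℝ) ≤ 3 * E := Nat.floor_le (by linarith)
  have hfl2 : 3 * E < (⌊3 * E⌋₊ : ℕ) + 1 := Nat.lt_floor_add_one _
  have key := bound_T hn hN Ω μ hμ0 hμ1 P r Δ ⌊3 * E⌋₊ hloc htame (by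
    intro x hx
    obtain ⟨τ, h1, h2⟩ := hP x hx
    have h3 : ∀ ω, 1 - (τ ω : ℝ) / ((⌊3 * E⌋₊ : ℕ) + 1) ≤
        (if (P ω).Within x ⌊3 * E⌋₊ (decide (Sum3.HasSum x)) then (1 : ℝ) else 0) := by
      intro ω
      have hpos : (0 : ℝ) < (⌊3 * E⌋₊ : ℕ) + 1 := by positivity
      split_ifs with h
      · have : 0 ≤ (τ ω : ℝ) / ((⌊3 * E⌋₊ : ℕ) + 1) := by positivity
        linarith
      · have h4 : ⌊3 * E⌋₊ + 1 ≤ τ ω := by
          by_contra hc
          exact h ⟨τ ω, by omega, h1 ω⟩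
        have h5 : (1 : ℝ) ≤ (τ ω : ℝ) / ((⌊3 * E⌋₊ : ℕ) + 1) := by
          rw [one_le_div hpos]
          exact_mod_cast h4
        linarith
    calc (2 : ℝ) / 3 ≤ 1 - E / ((⌊3 * E⌋₊ : ℕ) + 1) := by
          have hpos : (0 : ℝ) < (⌊3 * E⌋₊ : ℕ) + 1 := by positivity
          have : E / ((⌊3 * E⌋₊ : ℕ) + 1) ≤ 1 / 3 := by
            rw [div_le_iff₀ hpos]; linarith
          linarith
      _ ≤ 1 - (∑ ω, μ ω * τ ω) / ((⌊3 * E⌋₊ : ℕ) + 1) := by gcongr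
      _ = ∑ ω, μ ω * (1 - (τ ω : ℝ) / ((⌊3 * E⌋₊ : ℕ) + 1)) := by
          simp only [mul_sub, mul_one, Finset.sum_sub_distrib, hμ1]
          rw [Finset.sum_div]
          congr 1
          apply Finset.sum_congr rfl
          intro ω _; ring
      _ ≤ _ := Finset.sum_le_sum (fun ω _ => mul_le_mul_of_nonneg_left (h3 ω) (hμ0 ω)))
  have hf0 : (0 : ℝ) ≤ (⌊3 * E⌋₊ : ℕ) := Nat.cast_nonneg _
  have hr0 : (0 : ℝ) ≤ r := Nat.cast_nonneg r
  have hΔ0 : (0 : ℝ) ≤ Δ := Nat.cast_nonneg Δ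
  rcases key with h | h
  · left
    calc (n : ℝ) ^ 2 ≤ 1200 * (r ^ 2 * ((⌊3 * E⌋₊ : ℕ) : ℝ)) := h
      _ ≤ 1200 * (r ^ 2 * (3 * E)) := by gcongr
      _ = 3600 * (r ^ 2 * E) := by ring
  · right
    calc (n : ℝ) * N ≤ 170000 * (r * Δ * ((⌊3 * E⌋₊ : ℕ) : ℝ) ^ 2) := h
      _ ≤ 170000 * (r * Δ * (3 * E) ^ 2) := by gcongr
      _ = 1530000 * (r * Δ * E ^ 2) := by ring

/-- Polynomials of degree at most `Δ` are tame. -/
theorem tame_poly {n : ℕ} (Δ : ℕ) (p q : MvPolynomial (Fin n) ℝ) (hp : p.totalDegree ≤ Δ)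
    (hq : q.totalDegree ≤ Δ) :
    Tame Δ (fun x => MvPolynomial.eval x p) (fun x => MvPolynomial.eval x q) := by
  intro x d
  obtain ⟨g, hg⟩ : ∃ g : Polynomial ℝ, g = MvPolynomial.aeval
    (fun i => Polynomial.C (x i) + Polynomial.C (d i) * Polynomial.X) (p - q) := ⟨_, rfl⟩
  have hdeg : g.natDegree ≤ Δ := by
    rw [hg]
    have := MvPolynomial.aeval_natDegree_le (m := Δ) (n := 1) (p - q)
      ((MvPolynomial.totalDegree_sub _ _).trans (max_le hp hq))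
      (fun i => Polynomial.C (x i) + Polynomial.C (d i) * Polynomial.X) (by
        intro i
        refine (Polynomial.natDegree_add_le _ _).trans (max_le ?_ ?_)
        · simp
        · exact (Polynomial.natDegree_C_mul_le _ _).trans Polynomial.natDegree_X_le)
    simpa using this
  have heval : ∀ t : ℝ, g.eval t = MvPolynomial.eval (x + t • d) p - MvPolynomial.eval (x + t • d) q := by
    intro t
    have h1 : ∀ f : MvPolynomial (Fin n) ℝ, (MvPolynomial.aeval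
        (fun i => Polynomial.C (x i) + Polynomial.C (d i) * Polynomial.X) f : Polynomial ℝ).eval t =
        MvPolynomial.eval (x + t • d) f := by
      intro f
      induction f using MvPolynomial.induction_on with
      | C a => simp
      | add f g hf hg => simp [hf, hg]
      | mul_X f i hf => simp [hf]; left; ring
    rw [hg, map_sub, Polynomial.eval_sub, h1, h1]
  by_cases h0 : g = 0
  · left
    intro t
    have := heval t
    rw [h0, Polynomial.eval_zero] at this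
    dsimp only
    linarith
  · right
    have hsub : {t : ℝ | MvPolynomial.eval (x + t • d) p = MvPolynomial.eval (x + t • d) q} ⊆
        (g.roots.toFinset : Set ℝ) := by
      intro t ht
      simp only [Finset.mem_coe, Multiset.mem_toFinset]
      rw [Polynomial.mem_roots h0, Polynomial.IsRoot.def, heval t]
      rw [Set.mem_ofPred_eq] at ht
      rw [ht, sub_self]
    refine (Set.encard_le_encard hsub).trans ?_
    rw [Set.encard_coe_eq_coe_finsetCard]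
    have : g.roots.toFinset.card ≤ Δ :=
      (Multiset.toFinset_card_le _).trans ((Polynomial.card_roots' g).trans hdeg)
    exact_mod_cast this

theorem local_poly {n : ℕ} (r : ℕ) (p : MvPolynomial (Fin n) ℝ) (hp : p.vars.card ≤ r) :
    Local r (fun x => MvPolynomial.eval x p) := by
  refine ⟨p.vars, hp, ?_⟩
  intro x y h
  exact MvPolynomial.eval₂Hom_congr' rfl (fun i hi _ => h i hi) rfl

end Pool.Agent.J6H71.Sum3L
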